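import Mathlib

/-!
Normalised dyadic MHD system, barriers and limit lemmas.
-/

namespace Pool.Agent.FS.MHDRange

open Set Filter Topology Real

/-- parameters: viscosity, scale ratio `L`, small source constant `η` -/
structure Par where
  ν : ℝ
  L : ℝ
  η : ℝ
  hν : 0 < ν
  hL : 4800 ≤ L
  hη : 0 < η
  hη1 : η ≤ 1 / 14400
  hηL : η ^ 3 * L ≤ 1 / 768000
  κ : ℝ
  c : ℝ
  hκ : 2 ≤ κ
  hc : c = 80 * κ
  hcL : 30 * c ≤ L
  hcη : c * η ≤ 1 / 90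
  hcηL : c * (η ^ 3 * L) ≤ 1 / 4800

namespace Par
variable (P : Par)

noncomputable def k (j : ℕ) : ℝ := P.ν * P.L ^ j
noncomputable def V (x : ℝ) : ℝ :=
  exp (-x) + 3 * P.η * exp (-x / P.L) + 40 * P.η ^ 3 / (1 + x / P.L ^ 2)
noncomputable def dV (x : ℝ) : ℝ :=
  -exp (-x) - 3 * P.η / P.L * exp (-x / P.L) - 40 * P.η ^ 3 / P.L ^ 2 / (1 + x / P.L ^ 2) ^ 2
noncomputable def Lo (x : ℝ) : ℝ := exp (-(3 / 2) * x) * (1 / 2 + exp (-P.L * x) / 4)
noncomputable def E (j : ℕ) (t : ℝ) : ℝ := exp (-P.κ * (P.k j * t) / P.L)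
noncomputable def R (j : ℕ) (t : ℝ) : ℝ := exp (-P.κ * (P.k j * t) + P.κ * (P.k j * t) / P.L)
noncomputable def G1 (j : ℕ) (t : ℝ) (a w : ℕ → ℝ) : ℝ :=
  P.k j * (-a j - P.c * a j * a (j + 1) + P.η * (a (j - 1) ^ 2 + (P.E (j - 1) t * w (j - 1)) ^ 2)
    - P.c * (P.E j t * w j) * (P.E (j + 1) t * w (j + 1)))
noncomputable def G2 (j : ℕ) (t : ℝ) (a w : ℕ → ℝ) : ℝ :=
  P.k j * P.c * (-(a (j + 1) * w j) + a j * P.R j t * w (j + 1))
noncomputable def tt (j : ℕ) : ℝ := 8 / P.κ / P.k j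

theorem κ_pos : 0 < P.κ := by linarith [P.hκ]
theorem c_pos : 0 < P.c := by linarith [P.hκ, P.hc]
theorem L_pos : 0 < P.L := by linarith [P.hL]
theorem k_pos (j : ℕ) : 0 < P.k j := mul_pos P.hν (pow_pos P.L_pos j)
theorem k_succ (j : ℕ) : P.k (j + 1) = P.L * P.k j := by unfold k; ring
theorem tt_pos (j : ℕ) : 0 < P.tt j := div_pos (div_pos (by norm_num) P.κ_pos) (P.k_pos j)
theorem k_tt (j : ℕ) : P.κ * (P.k j * P.tt j) = 8 := by
  unfold tt; field_simp [(P.k_pos j).ne', P.κ_pos.ne']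
theorem k_tt_le (j : ℕ) : P.k j * P.tt j ≤ 4 := by
  have := P.k_tt j; have := P.hκ; have := mul_pos (P.k_pos j) (P.tt_pos j); nlinarith
theorem tt_succ (j : ℕ) : P.L * P.tt (j + 1) = P.tt j := by
  unfold tt; rw [k_succ]; field_simp [(P.k_pos j).ne', P.L_pos.ne', P.κ_pos.ne']
theorem tt_succ_le (j : ℕ) : P.tt (j + 1) ≤ P.tt j := by
  have := P.tt_succ j; have := P.tt_pos (j + 1); have := P.hL; nlinarith
theorem tt_anti {i j : ℕ} (h : i ≤ j) : P.tt j ≤ P.tt i :=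
  antitone_nat_of_succ_le P.tt_succ_le h
theorem eta3 : 40 * P.η ^ 3 ≤ P.η := by
  have := P.hη; have := P.hη1
  have h : P.η ^ 2 ≤ (1 / 14400) ^ 2 := by gcongr
  nlinarith

theorem V_pos {x : ℝ} (hx : 0 ≤ x) : 0 < P.V x := by
  have := P.hη; have := P.L_pos; unfold V; positivity

theorem V_le {x : ℝ} (hx : 0 ≤ x) :
    P.V x ≤ exp (-x) + 3 * P.η * exp (-x / P.L) + 40 * P.η ^ 3 := by
  have := P.hη; have := P.L_pos
  unfold V
  have : 40 * P.η ^ 3 / (1 + x / P.L ^ 2) ≤ 40 * P.η ^ 3 :=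
    div_le_self (by positivity) (le_add_of_nonneg_right (by positivity))
  linarith

theorem exp_div_le {x : ℝ} (hx : 0 ≤ x) : exp (-x / P.L) ≤ 1 := by
  rw [exp_le_one_iff, neg_div]; have := P.L_pos
  have : 0 ≤ x / P.L := by positivity
  linarith

theorem V_le' {x : ℝ} (hx : 0 ≤ x) : P.V x ≤ exp (-x) + 4 * P.η := by
  have := P.V_le hx; have := P.exp_div_le hx; have := P.eta3; have := P.hη
  nlinarith

theorem V_le_two {x : ℝ} (hx : 0 ≤ x) : P.V x ≤ 2 := by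
  have := P.V_le' hx; have := P.hη1
  have : exp (-x) ≤ 1 := by rw [exp_le_one_iff]; linarith
  linarith

theorem V_deriv {x : ℝ} (hx : 0 ≤ x) : HasDerivAt P.V (P.dV x) x := by
  have hL := P.L_pos
  have h0 : (1 + x / P.L ^ 2) ≠ 0 := by positivity
  have h1 : HasDerivAt (fun x : ℝ => exp (-x)) (exp (-x) * (-1)) x := (hasDerivAt_neg x).exp
  have h2 : HasDerivAt (fun x : ℝ => exp (-x / P.L)) (exp (-x / P.L) * (-1 / P.L)) x :=
    ((hasDerivAt_neg x).div_const _).exp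
  have h3 : HasDerivAt (fun x : ℝ => 1 + x / P.L ^ 2) (1 / P.L ^ 2) x :=
    ((hasDerivAt_id x).div_const _).const_add _
  have h4 := (hasDerivAt_const x (40 * P.η ^ 3)).fun_div h3 h0
  refine ((h1.fun_add (h2.const_mul (3 * P.η))).fun_add h4).congr_deriv ?_
  unfold dV; field_simp; ring

theorem upper_ineq {x : ℝ} (hx : 0 ≤ x) :
    P.η * (P.V (x / P.L) ^ 2 + (exp (-P.κ * (x / P.L) / P.L) * P.η) ^ 2) < P.dV x + P.V x := by
  have hL := P.L_pos; have hη := P.hη; have hL2 := P.hL; have h1 := P.hη1; have h2 := P.hηL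
  set g := 1 / (1 + x / P.L ^ 2) with hg
  set h := 1 / (1 + x / P.L / P.L ^ 2) with hh
  set e1 := exp (-x / P.L) with he1
  have g0 : 0 < g := by positivity
  have g1 : g ≤ 1 := by
    rw [hg, div_le_one (by positivity)]; exact le_add_of_nonneg_right (by positivity)
  have e10 : 0 < e1 := exp_pos _
  have e11 : e1 ≤ 1 := P.exp_div_le hx
  have a1 : exp (-(x / P.L) / P.L) ≤ g := by
    rw [hg, le_div_iff₀ (by positivity)]
    have : -(x / P.L) / P.L = -(x / P.L ^ 2) := by field_simp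
    rw [this, exp_neg, inv_mul_le_iff₀ (exp_pos _), mul_one]
    linarith [add_one_le_exp (x / P.L ^ 2)]
  have a2 : exp (-P.κ * (x / P.L) / P.L) ≤ g := by
    refine le_trans (exp_le_exp.2 ?_) a1
    have : 0 ≤ x / P.L := by positivity
    apply div_le_div_of_nonneg_right _ hL.le; nlinarith [P.hκ]
  have a3 : h ^ 2 ≤ P.L * g := by
    rw [hh, hg, div_pow, one_pow, mul_one_div, div_le_div_iff₀ (by positivity) (by positivity)]
    have hy : 0 ≤ x / P.L / P.L ^ 2 := by positivity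
    have : x / P.L ^ 2 = P.L * (x / P.L / P.L ^ 2) := by field_simp
    rw [this]; nlinarith [mul_nonneg hL.le hy, mul_nonneg hL.le (sq_nonneg (x / P.L / P.L ^ 2))]
  have hV : P.V (x / P.L) = e1 + 3 * P.η * exp (-(x / P.L) / P.L) + 40 * P.η ^ 3 * h := by
    unfold V; rw [he1, hh, neg_div P.L x]; ring
  have hR : P.dV x + P.V x = 3 * P.η * (1 - 1 / P.L) * e1 + 40 * P.η ^ 3 * g
      - 40 * P.η ^ 3 * (1 / P.L ^ 2) * g ^ 2 := by
    unfold dV V; rw [hg, ← he1]; field_simp; ring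
  set u := exp (-(x / P.L) / P.L)
  set v := exp (-P.κ * (x / P.L) / P.L)
  have u0 : 0 < u := exp_pos _
  have v0 : 0 < v := exp_pos _
  have b1 : u ^ 2 ≤ g := by nlinarith
  have b2 : v ^ 2 ≤ g := by nlinarith
  have b3 : P.V (x / P.L) ^ 2 ≤ 2 * e1 + 36 * P.η ^ 2 * g + 6400 * P.η ^ 6 * (P.L * g) := by
    rw [hV]
    have c1 : (e1 + 3 * P.η * u + 40 * P.η ^ 3 * h) ^ 2 ≤
        2 * e1 ^ 2 + 4 * (3 * P.η * u) ^ 2 + 4 * (40 * P.η ^ 3 * h) ^ 2 := by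
      nlinarith [sq_nonneg (e1 - (3 * P.η * u + 40 * P.η ^ 3 * h)),
        sq_nonneg (3 * P.η * u - 40 * P.η ^ 3 * h)]
    have c2 : e1 ^ 2 ≤ e1 := by nlinarith
    have c3 : P.η ^ 2 * u ^ 2 ≤ P.η ^ 2 * g := by gcongr
    have c4 : P.η ^ 6 * h ^ 2 ≤ P.η ^ 6 * (P.L * g) := by gcongr
    nlinarith
  have d1 : 1 / P.L ≤ 1 / 100 := by apply one_div_le_one_div_of_le <;> linarith
  have d2 : 1 / P.L ^ 2 ≤ 1 / 100 := by apply one_div_le_one_div_of_le <;> nlinarith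
  have d3 : 1 / P.L ^ 2 * g ^ 2 ≤ 1 / 100 * g := by
    have : g ^ 2 ≤ g := by nlinarith
    gcongr
  have d4 : 6400 * P.η * (P.η ^ 3 * P.L) ≤ 1 := by nlinarith
  have p1 : 0 < P.η ^ 3 * g := by positivity
  have p2 : 0 < P.η * e1 := by positivity
  have d5 : P.η ^ 2 * v ^ 2 ≤ P.η ^ 2 * g := by gcongr
  have d6 : P.η ^ 3 * g * (6400 * P.η * (P.η ^ 3 * P.L)) ≤ P.η ^ 3 * g * 1 := by gcongr
  have d7 : P.η ^ 3 * (1 / P.L ^ 2 * g ^ 2) ≤ P.η ^ 3 * (1 / 100 * g) := by gcongr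
  have d8 : P.η * e1 * (1 / P.L) ≤ P.η * e1 * (1 / 100) := by gcongr
  have f1 : P.η * (P.V (x / P.L) ^ 2 + (v * P.η) ^ 2) ≤
      P.η * (2 * e1 + 36 * P.η ^ 2 * g + 6400 * P.η ^ 6 * (P.L * g) + P.η ^ 2 * g) := by
    gcongr; nlinarith
  rw [hR]; nlinarith

theorem Lo_deriv (x : ℝ) : HasDerivAt P.Lo
    (-(3 / 2) * P.Lo x - P.L / 4 * (exp (-(3 / 2) * x) * exp (-P.L * x))) x := by
  have h1 := ((hasDerivAt_id x).const_mul (-(3 / 2) : ℝ)).exp
  have h2 := ((((hasDerivAt_id x).const_mul (-P.L)).exp).div_const 4).const_add (1 / 2)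
  refine (h1.fun_mul h2).congr_deriv ?_
  unfold Lo; simp only [id]; ring

theorem Lo_bounds {x : ℝ} (hx : 0 ≤ x) :
    exp (-(3 / 2) * x) / 2 ≤ P.Lo x ∧ P.Lo x ≤ 3 / 4 * exp (-(3 / 2) * x) ∧ P.Lo x ≤ P.V x := by
  have h0 := exp_pos (-(3 / 2) * x)
  have h1 := exp_pos (-P.L * x)
  have h2 : exp (-P.L * x) ≤ 1 := by rw [exp_le_one_iff]; nlinarith [P.L_pos]
  have h3 : exp (-(3 / 2) * x) ≤ exp (-x) := exp_le_exp.2 (by linarith)
  have h4 : exp (-x) ≤ P.V x := by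
    have := P.hη; have := P.L_pos
    unfold V
    have : 0 ≤ 3 * P.η * exp (-x / P.L) + 40 * P.η ^ 3 / (1 + x / P.L ^ 2) := by positivity
    linarith
  have h5 : P.Lo x ≤ 3 / 4 * exp (-(3 / 2) * x) := by unfold Lo; nlinarith
  refine ⟨by unfold Lo; nlinarith, h5, by linarith⟩

end Par

theorem lim_coord {U : Filter ℕ} {I : Set ℝ} {f : ℕ → ℝ → ℝ} {C t c : ℝ} (ht : t ∈ I)
    (lip : ∀ N, ∀ r ∈ I, ∀ s ∈ I, |f N r - f N s| ≤ C * |r - s|)
    (hf : Tendsto (fun N => f N t) U (𝓝 c)) :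
    Tendsto (fun p : ℕ × ℝ => f p.1 p.2) (U ×ˢ 𝓝[I] t) (𝓝 c) := by
  have h1 : Tendsto (fun p : ℕ × ℝ => f p.1 t) (U ×ˢ 𝓝[I] t) (𝓝 c) := hf.comp tendsto_fst
  have h2 : Tendsto (fun p : ℕ × ℝ => C * |p.2 - t|) (U ×ˢ 𝓝[I] t) (𝓝 0) := by
    have : Tendsto (fun r : ℝ => C * |r - t|) (𝓝 t) (𝓝 (C * |t - t|)) :=
      Continuous.tendsto (by fun_prop) t
    simp only [sub_self, abs_zero, mul_zero] at this
    exact this.comp (tendsto_snd.mono_right nhdsWithin_le_nhds)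
  have h3 : Tendsto (fun p : ℕ × ℝ => f p.1 p.2 - f p.1 t) (U ×ˢ 𝓝[I] t) (𝓝 0) := by
    refine squeeze_zero_norm' ?_ h2
    filter_upwards [tendsto_snd.eventually self_mem_nhdsWithin] with p hp
    exact lip _ _ hp _ ht
  simpa using h3.add h1

theorem lim_deriv {U : Filter ℕ} [U.NeBot] {S t c : ℝ} {f g : ℕ → ℝ → ℝ} {h : ℝ → ℝ}
    (ht : t ∈ Icc 0 S)
    (hd : ∀ᶠ N in U, ∀ r ∈ Icc 0 S, HasDerivWithinAt (f N) (g N r) (Icc 0 S) r)
    (hg : Tendsto (fun p : ℕ × ℝ => g p.1 p.2) (U ×ˢ 𝓝[Icc 0 S] t) (𝓝 c))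
    (hf : ∀ r ∈ Icc 0 S, Tendsto (fun N => f N r) U (𝓝 (h r))) :
    HasDerivWithinAt h c (Icc 0 S) t := by
  rw [hasDerivWithinAt_iff_isLittleO, Asymptotics.isLittleO_iff]
  intro ε hε
  have h1 := (Metric.tendsto_nhds.1 hg) ε hε
  obtain ⟨pa, hpa, pb, hpb, hab⟩ := eventually_prod_iff.1 h1
  obtain ⟨δ, hδ, hb⟩ := Metric.mem_nhdsWithin_iff.1 hpb
  filter_upwards [self_mem_nhdsWithin, mem_nhdsWithin_of_mem_nhds (Metric.ball_mem_nhds t hδ)]
    with s hs hs'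
  have key : ∀ᶠ N in U, ‖f N s - f N t - (s - t) • c‖ ≤ ε * ‖s - t‖ := by
    filter_upwards [hd, hpa] with N hN hN'
    have hc : Convex ℝ (Metric.ball t δ ∩ Icc 0 S) := (convex_ball t δ).inter (convex_Icc 0 S)
    have := hc.norm_image_sub_le_of_norm_hasDerivWithin_le (f := fun r => f N r - r * c)
      (f' := fun r => g N r - c) (C := ε)
      (fun r hr => (((hN r hr.2).mono inter_subset_right).fun_sub
        (((hasDerivAt_id r).mul_const c).hasDerivWithinAt.congr_deriv (one_mul c))))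
      (fun r hr => (hab hN' (hb hr)).le) ⟨Metric.mem_ball_self hδ, ht⟩ ⟨hs', hs⟩
    have e : f N s - f N t - (s - t) • c = f N s - s * c - (f N t - t * c) := by
      simp only [smul_eq_mul]; ring
    rw [e]; exact this
  exact le_of_tendsto ((((hf s hs).sub (hf t ht)).sub_const _).norm) key

end Pool.Agent.FS.MHDRange
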