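import Pool.Agent.FS.MHDRange.Apriori

/-!
Gain per shell and Harnack bound for the magnetic components.
-/

namespace Pool.Agent.FS.MHDRange

open Set Filter Topology Real

namespace Par
variable {P : Par} {N : ℕ} {S ε : ℝ} {A W : ℕ → ℝ → ℝ}

noncomputable def D (P : Par) (x : ℝ) : ℝ :=
  P.c / P.L * (1 - exp (-P.L * x)) + 3 * P.c * P.η * (1 - exp (-x)) + 40 * P.c * P.η ^ 3 * x

theorem D_deriv (P : Par) (x : ℝ) :
    HasDerivAt P.D (P.c * (exp (-P.L * x) + 3 * P.η * exp (-x) + 40 * P.η ^ 3)) x := by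
  have h1 := ((((hasDerivAt_id x).const_mul (-P.L)).exp).const_sub 1).const_mul (P.c / P.L)
  have h2 := (((hasDerivAt_neg x).exp).const_sub 1).const_mul (3 * P.c * P.η)
  have h3 := (hasDerivAt_id x).const_mul (40 * P.c * P.η ^ 3)
  refine ((h1.fun_add h2).fun_add h3).congr_deriv ?_
  simp only [id]; field_simp [P.L_pos.ne']

theorem D_bounds (P : Par) {x : ℝ} (h0 : 0 ≤ x) (h1 : x ≤ 4 * P.L) :
    1 ≤ exp (P.D x) ∧ exp (P.D x) ≤ 10 / 9 := by
  have hL := P.L_pos; have hη := P.hη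
  have a1 : exp (-P.L * x) ≤ 1 := by rw [exp_le_one_iff]; nlinarith
  have a2 : exp (-x) ≤ 1 := by rw [exp_le_one_iff]; linarith
  have a3 := exp_pos (-P.L * x)
  have a4 := exp_pos (-x)
  have hc := P.c_pos
  have a5 : P.c / P.L ≤ 1 / 30 := by rw [div_le_div_iff₀ hL (by norm_num)]; linarith [P.hcL]
  have a6 : 0 < P.c / P.L := by positivity
  have a7 : P.η ^ 3 * x ≤ P.η ^ 3 * (4 * P.L) := by gcongr
  have a8 : 0 ≤ P.η ^ 3 * x := by positivity
  have b0 : 0 ≤ P.D x := by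
    have := sub_nonneg.2 a1; have := sub_nonneg.2 a2
    unfold D; positivity
  have b1 : P.D x ≤ 1 / 10 := by
    have := mul_pos a6 a3
    have := mul_pos (mul_pos hc hη) a4
    have := mul_le_mul_of_nonneg_left a7 hc.le
    unfold D; linarith [P.hcη, P.hcηL]
  refine ⟨one_le_exp b0, ?_⟩
  have := add_one_le_exp (-P.D x)
  have e : exp (P.D x) * exp (-P.D x) = 1 := by rw [← exp_add]; simp
  nlinarith [exp_pos (P.D x)]

/-- the weighted magnetic component grows at least by the source -/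
theorem Gal.Y (h : P.Gal N S ε A W) {j : ℕ} (h1 : 1 ≤ j) (h2 : j ≤ N) {s t c : ℝ} (hs : 0 ≤ s)
    (hst : s ≤ t) (ht : t ≤ S)
    (hc : ∀ r ∈ Ico s t, c ≤ P.k j * P.c * (P.ha A r j * P.R j r * P.hw W r (j + 1))) :
    exp (P.D (P.k j * s)) * W j s + c * (t - s) ≤ exp (P.D (P.k j * t)) * W j t := by
  have hk := P.k_pos j
  have hD : ∀ r, HasDerivAt (fun r => exp (P.D (P.k j * r))) (exp (P.D (P.k j * r)) *
      (P.c * (exp (-P.L * (P.k j * r)) + 3 * P.η * exp (-(P.k j * r)) + 40 * P.η ^ 3) * P.k j)) r :=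
    fun r => (((P.D_deriv _).comp r ((hasDerivAt_id r).const_mul (P.k j))).exp).congr_deriv
      (by simp)
  have := mono_of (F := fun r => exp (P.D (P.k j * r)) * W j r - c * r) hs hst ht
    (fun r hr => ((hD r).hasDerivWithinAt.fun_mul (h.dW j h1 h2 r hr)).fun_sub
      ((hasDerivAt_id r).const_mul c).hasDerivWithinAt) ?_
  · linarith
  intro r hr
  have r0 : 0 ≤ r := hs.trans hr.1
  have hx : 0 ≤ P.k j * r := mul_nonneg hk.le r0
  have w0 := h.W0 j (t := r) ⟨r0, hr.2.le.trans ht⟩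
  have b1 : P.ha A r (j + 1) ≤
      exp (-P.L * (P.k j * r)) + 3 * P.η * exp (-(P.k j * r)) + 40 * P.η ^ 3 := by
    have := (P.haV A r0 (j + 1)).trans (P.V_le (mul_nonneg (P.k_pos _).le r0))
    have e : -(P.k (j + 1) * r) / P.L = -(P.k j * r) := by
      rw [k_succ]; field_simp [P.L_pos.ne']
    rwa [e, k_succ, mul_assoc, ← neg_mul] at this
  have b2 : P.ha A r (j + 1) * P.hw W r j ≤
      (exp (-P.L * (P.k j * r)) + 3 * P.η * exp (-(P.k j * r)) + 40 * P.η ^ 3) * W j r :=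
    mul_le_mul b1 (clip_le_self w0) (P.hw0 _ _ _) ((P.ha0 _ _ _).trans b1)
  have b3 : 1 ≤ exp (P.D (P.k j * r)) := by
    have hL := P.L_pos; have hη := P.hη; have hc0 := P.c_pos
    have a1 : exp (-P.L * (P.k j * r)) ≤ 1 := by rw [exp_le_one_iff]; nlinarith
    have a2 : exp (-(P.k j * r)) ≤ 1 := by rw [exp_le_one_iff]; linarith
    apply one_le_exp; unfold D
    have := sub_nonneg.2 a1; have := sub_nonneg.2 a2
    positivity
  have b4 := mul_nonneg (mul_nonneg hk.le P.c_pos.le) (src0 (P := P) A W j r)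
  have b5 := mul_le_mul_of_nonneg_right b3 b4
  have b6 := mul_le_mul_of_nonneg_left b2
    (mul_nonneg (exp_pos (P.D (P.k j * r))).le (mul_nonneg hk.le P.c_pos.le))
  have b7 := hc r hr
  unfold G2
  linarith

theorem Gal.Ymono (h : P.Gal N S ε A W) {j : ℕ} (h1 : 1 ≤ j) (h2 : j ≤ N) {s t : ℝ} (hs : 0 ≤ s)
    (hst : s ≤ t) (ht : t ≤ S) (h4 : P.k j * t ≤ 4 * P.L) : 9 / 10 * W j s ≤ W j t := by
  have hk := P.k_pos j
  have := h.Y h1 h2 (c := 0) hs hst ht fun r _ =>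
    mul_nonneg (mul_nonneg hk.le P.c_pos.le) (src0 A W j r)
  have a := (P.D_bounds (mul_nonneg hk.le hs) ((mul_le_mul_of_nonneg_left hst hk.le).trans h4)).1
  have b := (P.D_bounds (mul_nonneg hk.le (hs.trans hst)) h4).2
  have c := h.W0 j (t := s) ⟨hs, hst.trans ht⟩
  have d := h.W0 j (t := t) ⟨hs.trans hst, ht⟩
  nlinarith

theorem Gal.tail (h : P.Gal N S ε A W) {j : ℕ} (h1 : 1 ≤ j) (h2 : j ≤ N) {s t β : ℝ} (hs : 0 ≤ s)
    (hst : s ≤ t) (ht : t ≤ S) (hβ : ∀ r ∈ Icc 0 S, W (j + 1) r ≤ β) :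
    W j t ≤ W j s + 640 / 3 * β * exp (-(3 / 4) * (P.κ * (P.k j * s))) := by
  have hk := P.k_pos j
  have β0 : 0 ≤ β := (h.W0 _ ⟨hs, hst.trans ht⟩).trans (hβ s ⟨hs, hst.trans ht⟩)
  have hD : ∀ r, HasDerivAt (fun r => -(640 / 3 * β) * exp (-(3 / 4) * (P.κ * (P.k j * r))))
      (P.k j * P.c * (2 * exp (-(3 / 4) * (P.κ * (P.k j * r))) * β)) r := fun r =>
    ((((((hasDerivAt_id r).const_mul (P.k j)).const_mul P.κ).const_mul
      (-(3 / 4))).exp).const_mul _).congr_deriv (by simp only [id]; rw [P.hc]; ring)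
  have := mono_of (F := fun r => -(640 / 3 * β) * exp (-(3 / 4) * (P.κ * (P.k j * r))) - W j r)
    hs hst ht
    (fun r hr => (hD r).hasDerivWithinAt.fun_sub (h.dW j h1 h2 r hr)) ?_
  · have := mul_nonneg β0 (exp_pos (-(3 / 4) * (P.κ * (P.k j * t)))).le
    linarith
  intro r hr
  have r0 : 0 ≤ r := hs.trans hr.1
  have hr' : r ∈ Icc 0 S := ⟨r0, hr.2.le.trans ht⟩
  have b1 : P.ha A r j * P.R j r * P.hw W r (j + 1) ≤
      2 * exp (-(3 / 4) * (P.κ * (P.k j * r))) * β := by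
    have := P.ha0 A r j; have := P.R_pos j r; have := P.hw0 W r (j + 1)
    gcongr
    · exact (P.haV A r0 j).trans (P.V_le_two (mul_nonneg hk.le r0))
    · exact (P.R_bounds j r0).2
    · exact (clip_le_self (h.W0 _ hr')).trans (hβ r hr')
  have b2 := mul_nonneg (P.ha0 A r (j + 1)) (P.hw0 W r j)
  unfold G2
  rw [sub_nonneg]
  apply mul_le_mul_of_nonneg_left _ (mul_pos hk P.c_pos).le
  linarith

theorem exp_four : 1 / 16 ≤ exp (-(3 / 2) * (1 / 2)) / 2 * exp (-2 * (1 / 2)) := by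
  have h : exp (-(3 / 2) * (1 / 2)) / 2 * exp (-2 * (1 / 2)) = exp (-(7 / 4)) / 2 := by
    rw [div_mul_eq_mul_div, ← exp_add]; norm_num
  have h2 : exp (-2) ≤ exp (-(7 / 4)) := exp_le_exp.2 (by norm_num)
  have h3 : exp 2 ≤ 8 := by
    have : exp 2 = exp 1 * exp 1 := by rw [← exp_add]; norm_num
    nlinarith [exp_one_lt_d9, exp_pos 1]
  have h4 : exp 2 * exp (-2) = 1 := by rw [← exp_add]; simp
  rw [h]; nlinarith [exp_pos (-2)]

theorem exp_six : exp (-(3 / 4) * 8) ≤ 1 / 300 := by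
  have h1 : exp 6 = exp 1 ^ 6 := by rw [← exp_nat_mul]; norm_num
  have h2 : (2.7 : ℝ) ^ 6 ≤ exp 1 ^ 6 := by gcongr; linarith [exp_one_gt_d9]
  have h4 : exp 6 * exp (-(3 / 4) * 8) = 1 := by rw [← exp_add]; norm_num
  nlinarith [exp_pos (-(3 / 4) * 8)]

theorem Gal.gain (h : P.Gal N S ε A W) (hS : P.tt 1 ≤ S) {j : ℕ} (h1 : 1 ≤ j) (h2 : j < N) :
    9 / 5 * min (W (j + 1) (P.tt (j + 1))) P.η ≤ W j (P.tt j) := by
  have hk := P.k_pos j
  have tS : P.tt j ≤ S := (P.tt_anti h1).trans hS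
  have t0 := P.tt_pos (j + 1)
  have kt := P.k_tt j
  have kl := P.k_tt_le j
  have hc0 := P.c_pos
  have ts := P.tt_succ j
  have hL := P.hL
  set m := min (W (j + 1) (P.tt (j + 1))) P.η with hm
  have m0 : 0 ≤ m := le_min (h.W0 _ ⟨t0.le, (P.tt_succ_le j).trans tS⟩) P.hη.le
  have u1 : P.tt (j + 1) ≤ P.tt j / 16 := by
    linarith [mul_le_mul_of_nonneg_right hL t0.le]
  have tj := P.tt_pos j
  have := h.Y h1 h2.le (s := P.tt (j + 1)) (t := P.tt j / 8)
    (c := P.k j * P.c * (1 / 16 * (9 / 10 * m))) t0.le (by linarith) (by linarith) ?_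
  · have a := h.Ymono h1 h2.le (s := P.tt j / 8) (t := P.tt j) (by linarith) (by linarith) tS
      (by linarith)
    have b := (P.D_bounds (x := P.k j * (P.tt j / 8)) (by positivity) (by linarith)).2
    have c := h.W0 j (t := P.tt j / 8) ⟨by linarith, by linarith⟩
    have d := mul_nonneg (exp_pos (P.D (P.k j * P.tt (j + 1)))).le
      (h.W0 j (t := P.tt (j + 1)) ⟨t0.le, by linarith⟩)
    have e : P.k j * P.c * (1 / 16 * (9 / 10 * m)) * (P.tt j / 16) ≤
        P.k j * P.c * (1 / 16 * (9 / 10 * m)) * (P.tt j / 8 - P.tt (j + 1)) :=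
      mul_le_mul_of_nonneg_left (by linarith) (by positivity)
    have f : P.k j * P.c * (1 / 16 * (9 / 10 * m)) * (P.tt j / 16) = 9 / 4 * m := by
      rw [P.hc]; linear_combination (9 / 32 * m) * kt
    have g := mul_le_mul_of_nonneg_right b c
    have : 9 / 4 * m ≤ 10 / 9 * W j (P.tt j / 8) := by linarith
    linarith
  · intro r hr
    have r0 : 0 ≤ r := t0.le.trans hr.1
    have rS : r ≤ S := by linarith [hr.2]
    have hx : 0 ≤ P.k j * r := mul_nonneg hk.le r0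
    have hx1 := mul_le_mul_of_nonneg_left hr.2.le hk.le
    have hx2 : P.k j * r ≤ 1 / 2 := by linarith
    have hx3 : P.κ * (P.k j * r) ≤ 1 := by linarith [mul_le_mul_of_nonneg_left hx1 P.κ_pos.le]
    apply mul_le_mul_of_nonneg_left _ (by positivity)
    have b1 : exp (-(3 / 2) * (1 / 2)) / 2 ≤ P.ha A r j := by
      rw [h.haA ⟨r0, rS⟩]
      have := h.lower h1 h2.le r ⟨r0, rS⟩
      have := (P.Lo_bounds hx).1
      have : exp (-(3 / 2) * (1 / 2)) ≤ exp (-(3 / 2) * (P.k j * r)) := exp_le_exp.2 (by linarith)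
      simp only; linarith
    have b2 : exp (-2 * (1 / 2)) ≤ P.R j r :=
      le_trans (exp_le_exp.2 (by linarith)) (P.R_bounds j r0).1
    have b3 : 9 / 10 * m ≤ P.hw W r (j + 1) := by
      have := h.Ymono (j := j + 1) (by omega) h2 t0.le hr.1 rS (by
        rw [k_succ]; linarith [mul_le_mul_of_nonneg_left hx2 P.L_pos.le])
      have := min_le_left (W (j + 1) (P.tt (j + 1))) P.η
      have := min_le_right (W (j + 1) (P.tt (j + 1))) P.η
      exact clip_ge (by linarith) (by linarith)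
    have b4 : 1 / 16 ≤ P.ha A r j * P.R j r :=
      exp_four.trans (mul_le_mul b1 b2 (exp_pos _).le (P.ha0 _ _ _))
    exact mul_le_mul b4 b3 (by positivity) (mul_nonneg (P.ha0 _ _ _) (P.R_pos _ _).le)

theorem Gal.small (h : P.Gal N S ε A W) (hS : P.tt 1 ≤ S) {s : ℝ} (hs : s ≤ P.η / 4)
    (h0 : W 1 (P.tt 1) ≤ s) : ∀ j, 1 ≤ j → W j (P.tt j) ≤ s ∧
      9 / 5 * W (j + 1) (P.tt (j + 1)) ≤ W j (P.tt j) := by
  have pos : ∀ j, 1 ≤ j → 0 ≤ W j (P.tt j) := fun j hj =>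
    h.W0 j ⟨(P.tt_pos j).le, (P.tt_anti hj).trans hS⟩
  have step : ∀ j, 1 ≤ j → W j (P.tt j) ≤ s → 9 / 5 * W (j + 1) (P.tt (j + 1)) ≤ W j (P.tt j) := by
    intro j hj hj'
    by_cases hN : j < N
    · have g := h.gain hS hj hN
      have := P.hη
      rcases min_cases (W (j + 1) (P.tt (j + 1))) P.η with ⟨e, _⟩ | ⟨e, _⟩ <;> rw [e] at g <;>
        linarith
    · rw [(h.out (j + 1) _ (Or.inr (by omega))).2, mul_zero]; exact pos j hj
  have all : ∀ j, 1 ≤ j → W j (P.tt j) ≤ s := by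
    intro j hj
    induction j, hj using Nat.le_induction with
    | base => exact h0
    | succ j hj ih => have := step j hj ih; have := pos (j + 1) (by omega); linarith
  exact fun j hj => ⟨all j hj, step j hj (all j hj)⟩

theorem down {p : ℕ → Prop} (N : ℕ) (top : ∀ j, N < j → p j)
    (step : ∀ j, 1 ≤ j → j ≤ N → p (j + 1) → p j) : ∀ j, 1 ≤ j → p j := by
  have : ∀ d j, 1 ≤ j → N < j + d → p j := by
    intro d
    induction d with
    | zero => exact fun j _ hj => top j hj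
    | succ d ih =>
      intro j h1 hj
      by_cases hN : N < j
      · exact top j hN
      · exact step j h1 (by omega) (ih (j + 1) (by omega) (by omega))
  exact fun j hj => this (N + 1) j hj (by omega)

theorem Gal.harnack (h : P.Gal N S ε A W) (hS : P.tt 1 ≤ S) {s : ℝ} (hs : s ≤ P.η / 4)
    (h0 : W 1 (P.tt 1) ≤ s) : ∀ j, 1 ≤ j → ∀ t ∈ Icc 0 S, W j t ≤ 2 * W j (P.tt j) := by
  refine down N (fun j hj t _ => ?_) fun j h1 h2 ih t ht => ?_
  · rw [(h.out j _ (Or.inr hj)).2, (h.out j _ (Or.inr hj)).2]; simp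
  have tS : P.tt j ≤ S := (P.tt_anti h1).trans hS
  have p0 := h.W0 j ⟨(P.tt_pos j).le, tS⟩
  rcases le_total t (P.tt j) with h3 | h3
  · have := h.Ymono h1 h2 ht.1 h3 tS (by linarith [P.k_tt_le j, P.hL])
    linarith
  · have a := h.tail h1 h2 (P.tt_pos j).le h3 ht.2 ih
    rw [k_tt] at a
    have b := (h.small hS hs h0 j h1).2
    have c := h.W0 (j + 1) ⟨(P.tt_pos _).le, (P.tt_succ_le j).trans tS⟩
    have d := mul_le_mul_of_nonneg_left exp_six c
    nlinarith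

theorem Gal.zero (h : P.Gal N S 0 A W) : ∀ j, 1 ≤ j → ∀ t ∈ Icc 0 S, W j t ≤ 0 := by
  refine down N (fun j hj t _ => (h.out j _ (Or.inr hj)).2.le) fun j h1 h2 ih t ht => ?_
  have a := h.tail h1 h2 le_rfl ht.1 ht.2 ih
  have : W j 0 = 0 := by
    rcases h2.lt_or_eq with h3 | h3
    · exact h.iW j h3
    · rw [h3, h.iN]
  simpa [this] using a

theorem Gal.big (h : P.Gal N S P.η A W) (hS : P.tt 1 ≤ S) (hN : 1 ≤ N) :
    P.η / 4 ≤ W 1 (P.tt 1) := by
  have hη := P.hη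
  have : ∀ j, 1 ≤ j → j ≤ N → 9 / 10 * P.η ≤ W j (P.tt j) := by
    refine down N (fun j hj h => absurd hj (by omega)) fun j h1 h2 ih _ => ?_
    rcases h2.lt_or_eq with h3 | h3
    · have a := h.gain hS h1 h3
      have : 9 / 10 * P.η ≤ min (W (j + 1) (P.tt (j + 1))) P.η := le_min (ih h3) (by linarith)
      linarith
    · have := h.Ymono h1 h2 le_rfl (P.tt_pos j).le ((P.tt_anti h1).trans hS)
        (by linarith [P.k_tt_le j, P.hL])
      rw [h3] at this ⊢
      rwa [h.iN] at this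
  linarith [this 1 le_rfl hN]

theorem Gal.keep (h : P.Gal N S ε A W) (hS : P.tt 1 ≤ S) {s : ℝ} (hs : s ≤ P.η / 4)
    (h0 : W 1 (P.tt 1) = s) : ∀ i, i + 1 ≤ N → s / 427 ^ i ≤ W (i + 1) (P.tt (i + 1)) := by
  intro i
  induction i with
  | zero => intro _; simp [h0]
  | succ i ih =>
    intro hi
    have tS : P.tt (i + 1) ≤ S := (P.tt_anti (by omega)).trans hS
    have a := h.tail (j := i + 1) (by omega) (by omega) le_rfl (P.tt_pos _).le tS
      (h.harnack hS hs h0.le (i + 1 + 1) (by omega))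
    rw [h.iW _ (by omega), mul_zero, mul_zero, mul_zero, exp_zero] at a
    have b := ih (by omega)
    have c := h.W0 (i + 1 + 1) ⟨(P.tt_pos _).le, (P.tt_succ_le _).trans tS⟩
    rw [pow_succ, ← div_div, div_le_iff₀ (by norm_num)]
    linarith

end Par
end Pool.Agent.FS.MHDRange
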